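import Pool.Agent.H773.IE.SR

set_option autoImplicit false

open scoped ENNReal

namespace Pool.Agent.H695.IE

open Pool.Agent.H773.IE

/-- at least `j` letters have heights at least `e` times the largest one -/
private def TJ (m j : ℕ) (e : ℝ) (s : Sta m) (q : Fin (m + 1) → ℝ) : Prop :=
  IrrS s ∧ (∀ i, 0 < q i) ∧ ∃ B : Finset (Fin (m + 1)), j ≤ B.card ∧ ∀ i ∈ B, ∀ k, e * q k ≤ q i

private theorem bal_step (hcomp : S_comp) (hmono : S_mono) (h1 : S_round1)
    (h2 : S_round2) (m : ℕ) (hm : 1 ≤ m) (j : ℕ) (e : ℝ) (he : 0 < e) (he1 : e ≤ 1) :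
    ∃ e' : ℝ, 0 < e' ∧ e' ≤ 1 ∧ ∃ c : ℝ≥0∞, 0 < c ∧ ∀ (s : Sta m) (q : Fin (m + 1) → ℝ),
      TJ m j e s q → j < m + 1 → c ≤ hP (TJ m (j + 1) e') s q := by
  obtain ⟨c1, hc1, C, hC, hr⟩ := h1 m hm e he
  set K : ℝ := (2 * (m + 1 : ℝ) + 1) * C with hK
  have hK1 : 1 ≤ K := by
    have hm0 : (0 : ℝ) ≤ m := Nat.cast_nonneg m
    nlinarith
  have hK0 : 0 < K := by linarith
  have hle : e / K ≤ e := div_le_self he.le hK1
  refine ⟨e / K, div_pos he hK0, hle.trans he1, min 1 (1 / 2 * c1), ?_, ?_⟩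
  · refine lt_min (by norm_num) ?_
    exact ENNReal.mul_pos (by norm_num) hc1.ne'
  intro s q hT hj
  obtain ⟨hs, hq, B', hB', hB''⟩ := hT
  -- the largest height
  obtain ⟨k0, hk0⟩ : ∃ k0, ∀ k, q k ≤ q k0 := by
    obtain ⟨k0, -, h⟩ := Finset.exists_max_image (Finset.univ : Finset (Fin (m + 1))) q
      Finset.univ_nonempty
    exact ⟨k0, fun k => h k (Finset.mem_univ k)⟩
  set M : ℝ := q k0 with hM
  have hM0 : 0 < M := hq k0
  set B : Finset (Fin (m + 1)) := Finset.univ.filter fun i => e * M ≤ q i with hB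
  have hBm : ∀ i, i ∈ B ↔ e * M ≤ q i := fun i => by simp [hB]
  have hk0B : k0 ∈ B := (hBm k0).2 (by rw [← hM]; nlinarith)
  have hsub : B' ⊆ B := fun i hi => (hBm i).2 (hB'' i hi k0)
  have hcard : j ≤ B.card := hB'.trans (Finset.card_le_card hsub)
  by_cases hlt : j + 1 ≤ B.card
  · have hT' : TJ m (j + 1) (e / K) s q := by
      refine ⟨hs, hq, B, hlt, fun i hi k => ?_⟩
      have a1 := (hBm i).1 hi
      have a2 : e / K * q k ≤ e * M :=
        mul_le_mul hle (hk0 k) (hq k).le he.le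
      exact a2.trans a1
    rw [(hcomp m hm _).1 s q hT']
    exact min_le_left _ _
  · have hBu : B ≠ Finset.univ := by
      intro h
      rw [h, Finset.card_univ, Fintype.card_fin] at hlt
      omega
    have hθ : 0 < e * M := mul_pos he hM0
    have r1 := hr s hs B ⟨k0, hk0B⟩ hBu (e * M) M q hθ le_rfl hq hk0 (fun i hi => (hBm i).1 hi)
      (fun i hi => not_le.1 fun h => hi ((hBm i).2 h))
    have r2 : ∀ (s' : Sta m) (q' : Fin (m + 1) → ℝ), IrrS s' → (∀ i, 0 < q' i) →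
        (IrrS s' ∧ (∀ i, 0 < q' i) ∧ (∀ i ∈ B, e * M ≤ q' i) ∧
          (∀ i, i ∉ B → q' i < e * M) ∧ (∀ i, q' i ≤ C * M) ∧ (et s' ∉ B ∨ eb s' ∉ B)) →
        (1 / 2 : ℝ≥0∞) ≤ hP (TJ m (j + 1) (e / K)) s' q' := by
      rintro s' q' - - ⟨hs', hq', b1, b2, b3, b4⟩
      refine (h2 m hm s' hs' B ⟨k0, hk0B⟩ hBu (e * M) (C * M) q' hθ hq' b3 b1 b2 b4).trans ?_
      refine (hmono m hm _).1 _ ?_ s' q' hs' hq'
      rintro s'' q'' - - ⟨hs'', hq'', d1, ⟨i0, hi0, hi0'⟩, d3⟩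
      have hall : ∀ i, e * M ≤ q'' i → ∀ k, e / K * q'' k ≤ q'' i := by
        intro i hi k
        have a1 : q'' k ≤ K * M := by
          have := d3 k
          rw [hK]
          linarith [this]
        have a2 : e / K * q'' k ≤ e / K * (K * M) :=
          mul_le_mul_of_nonneg_left a1 (div_pos he hK0).le
        have a3 : e / K * (K * M) = e * M := by
          field_simp
        linarith
      refine ⟨hs'', hq'', insert i0 B, ?_, ?_⟩
      · rw [Finset.card_insert_of_notMem hi0]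
        omega
      · intro i hi
        rcases Finset.mem_insert.1 hi with rfl | hi
        · exact hall _ hi0'
        · exact hall _ (d1 i hi)
    have r3 := (hcomp m hm (TJ m (j + 1) (e / K))).2.2.2 _ (1 / 2) r2 s q hs hq
    calc min 1 (1 / 2 * c1) ≤ 1 / 2 * c1 := min_le_right _ _
      _ ≤ _ := (mul_le_mul_right r1 _).trans r3

private theorem bal_all (hcomp : S_comp) (hmono : S_mono) (h1 : S_round1)
    (h2 : S_round2) (m : ℕ) (hm : 1 ≤ m) (j : ℕ) (hj : j < m + 1) :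
    ∃ e : ℝ, 0 < e ∧ e ≤ 1 ∧ ∃ c : ℝ≥0∞, 0 < c ∧ ∀ (s : Sta m) (q : Fin (m + 1) → ℝ),
      IrrS s → (∀ i, 0 < q i) → c ≤ hP (TJ m (j + 1) e) s q := by
  induction j with
  | zero =>
    refine ⟨1, one_pos, le_rfl, 1, one_pos, fun s q hs hq => ?_⟩
    obtain ⟨k0, -, hk0⟩ := Finset.exists_max_image (Finset.univ : Finset (Fin (m + 1))) q
      Finset.univ_nonempty
    have hT : TJ m (0 + 1) 1 s q := by
      refine ⟨hs, hq, {k0}, by simp, fun i hi k => ?_⟩
      rw [Finset.mem_singleton.1 hi, one_mul]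
      exact hk0 k (Finset.mem_univ k)
    rw [(hcomp m hm _).1 s q hT]
  | succ j ih =>
    obtain ⟨e, he, he1, c, hc, h⟩ := ih (by omega)
    obtain ⟨e', he', he1', c', hc', h'⟩ := bal_step hcomp hmono h1 h2 m hm (j + 1) e he he1
    refine ⟨e', he', he1', c' * c, ENNReal.mul_pos hc'.ne' hc.ne', fun s q hs hq => ?_⟩
    have r3 := (hcomp m hm (TJ m (j + 1 + 1) e')).2.2.2 (TJ m (j + 1) e) c'
      (fun s q _ _ hT => h' s q hT hj) s q hs hq
    exact (mul_le_mul_right (h s q hs hq) _).trans r3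

/-- balanced heights are reached -/
theorem t_bal (hirr : S_irr) (hcomp : S_comp) (hmono : S_mono) (h1 : S_round1)
    (h2 : S_round2) : S_bal := by
  intro m hm
  obtain ⟨e, he, he1, c, hc, h⟩ := bal_all hcomp hmono h1 h2 m hm m (by omega)
  refine ⟨1 / e, by rw [le_div_iff₀ he]; linarith, c, hc, fun s hs q hq => ?_⟩
  refine (h s q hs hq).trans ?_
  refine (hmono m hm _).1 _ ?_ s q hs hq
  rintro s' q' - - ⟨hs', hq', B, hB, hB'⟩
  refine ⟨hs', hq', fun i k => ?_⟩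
  have hBu : B = Finset.univ := by
    apply Finset.eq_univ_of_card
    rw [Fintype.card_fin]
    have := Finset.card_le_univ B
    rw [Fintype.card_fin] at this
    omega
  have := hB' k (by rw [hBu]; exact Finset.mem_univ k) i
  rw [one_div_mul_eq_div, le_div_iff₀ he]
  linarith

end Pool.Agent.H695.IE
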