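import Pool.Agent.H773.IE.SM

set_option autoImplicit false

open MeasureTheory Set Filter Topology
open scoped ENNReal symmDiff

namespace Pool.Agent.H695.IE

open Pool.Agent.H773.IE

section

variable {X : Type} [MeasurableSpace X] (m : Measure X) [IsProbabilityMeasure m]

/-- indicators of the slices -/
private noncomputable def GG (s : Set (ℝ × X)) (hs : MeasurableSet s) (x : ℝ) : Lp ℝ 2 m :=
  indicatorConstLp 2 (measurable_prodMk_left hs : MeasurableSet (Prod.mk x ⁻¹' s))
    (measure_ne_top m _) (1 : ℝ)

private theorem icl_congr (s t : Set X) (hs : MeasurableSet s) (ht : MeasurableSet t)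
    (h : s = t) : indicatorConstLp 2 hs (measure_ne_top m _) (1 : ℝ) =
      indicatorConstLp 2 ht (measure_ne_top m _) (1 : ℝ) := by
  subst h
  rfl

private theorem icl_compl (s : Set X) (hs : MeasurableSet s) :
    indicatorConstLp 2 hs.compl (measure_ne_top m _) (1 : ℝ) =
      indicatorConstLp 2 MeasurableSet.univ (measure_ne_top m _) (1 : ℝ) -
      indicatorConstLp 2 hs (measure_ne_top m _) (1 : ℝ) := by
  rw [eq_sub_iff_add_eq, ← indicatorConstLp_disjoint_union hs.compl hs (measure_ne_top m _)
    (measure_ne_top m _) disjoint_compl_left]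
  exact icl_congr m _ _ _ _ (compl_union_self s)

private theorem gg_meas (s : Set (ℝ × X)) (hs : MeasurableSet s) :
    StronglyMeasurable (GG m s hs) := by
  refine MeasurableSpace.induction_on_inter
    (C := fun (s : Set (ℝ × X)) (hs : MeasurableSet s) => StronglyMeasurable (GG m s hs))
    generateFrom_prod.symm isPiSystem_prod ?_ ?_ ?_ ?_ s hs
  · have : GG m (∅ : Set (ℝ × X)) MeasurableSet.empty = fun _ => 0 := by
      funext x
      unfold GG
      rw [icl_congr m (Prod.mk x ⁻¹' ∅) ∅ _ MeasurableSet.empty rfl, indicatorConstLp_empty]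
    rw [this]
    exact stronglyMeasurable_const
  · rintro t ⟨A, hA, B, hB, rfl⟩
    have hA' : MeasurableSet A := hA
    have hB' : MeasurableSet B := hB
    have : GG m (A ×ˢ B) (hA'.prod hB') =
        A.indicator (fun _ => indicatorConstLp 2 hB' (measure_ne_top m _) (1 : ℝ)) := by
      funext x
      unfold GG
      by_cases hx : x ∈ A
      · rw [Set.indicator_of_mem hx]
        exact icl_congr m _ _ _ _ (by ext y; simp [hx])
      · rw [Set.indicator_of_notMem hx]
        rw [icl_congr m (Prod.mk x ⁻¹' (A ×ˢ B)) ∅ _ MeasurableSet.empty (by ext y; simp [hx]),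
          indicatorConstLp_empty]
    show StronglyMeasurable (GG m (A ×ˢ B) _)
    rw [this]
    exact stronglyMeasurable_const.indicator hA'
  · intro t ht ih
    have : GG m tᶜ ht.compl = fun x =>
        indicatorConstLp 2 MeasurableSet.univ (measure_ne_top m _) (1 : ℝ) - GG m t ht x := by
      funext x
      exact icl_compl m _ (measurable_prodMk_left ht)
    rw [this]
    exact stronglyMeasurable_const.sub ih
  · intro f hd hf ih
    have hU : ∀ n : ℕ, MeasurableSet (⋃ k < n, f k) := fun n =>
      MeasurableSet.biUnion (Set.to_countable _) fun k _ => hf k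
    have hmU : ∀ n : ℕ, StronglyMeasurable (GG m (⋃ k < n, f k) (hU n)) := by
      intro n
      induction n with
      | zero =>
        have : GG m (⋃ k < 0, f k) (hU 0) = fun _ => 0 := by
          funext x
          unfold GG
          rw [icl_congr m (Prod.mk x ⁻¹' (⋃ k < 0, f k)) ∅ _ MeasurableSet.empty (by simp),
            indicatorConstLp_empty]
        rw [this]
        exact stronglyMeasurable_const
      | succ n ihn =>
        have : GG m (⋃ k < n + 1, f k) (hU (n + 1)) =
            fun x => GG m (⋃ k < n, f k) (hU n) x + GG m (f n) (hf n) x := by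
          funext x
          unfold GG
          rw [← indicatorConstLp_disjoint_union (measurable_prodMk_left (hU n))
            (measurable_prodMk_left (hf n)) (measure_ne_top m _) (measure_ne_top m _) ?_]
          · refine icl_congr m _ _ _ _ ?_
            rw [Set.biUnion_lt_succ, Set.preimage_union]
          · refine Disjoint.preimage _ ?_
            rw [Set.disjoint_iUnion₂_left]
            intro k hk
            exact hd (ne_of_lt hk)
        rw [this]
        exact ihn.add (ih n)
    refine stronglyMeasurable_of_tendsto atTop hmU ?_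
    rw [tendsto_pi_nhds]
    intro x
    unfold GG
    refine tendsto_indicatorConstLp_set (by norm_num) ?_
    -- the symmetric differences decrease to the empty set
    have hmono : ∀ n, (⋃ k < n, f k) ⊆ ⋃ k, f k := fun n =>
      Set.iUnion₂_subset fun k _ => Set.subset_iUnion f k
    have hset : ∀ n, (Prod.mk x ⁻¹' (⋃ k < n, f k)) ∆ (Prod.mk x ⁻¹' (⋃ k, f k)) =
        Prod.mk x ⁻¹' ((⋃ k, f k) \ ⋃ k < n, f k) := by
      intro n
      rw [Set.symmDiff_def, Set.sdiff_eq_empty.2 (Set.preimage_mono (hmono n)), Set.empty_union,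
        Set.preimage_sdiff]
    simp_rw [hset]
    have hanti : Antitone fun n => Prod.mk x ⁻¹' ((⋃ k, f k) \ ⋃ k < n, f k) := by
      intro a b hab
      refine Set.preimage_mono (Set.sdiff_subset_sdiff_right ?_)
      exact Set.biUnion_subset_biUnion_left fun k (hk : k < a) => lt_of_lt_of_le hk hab
    have h := tendsto_measure_iInter_atTop (μ := m)
      (s := fun n => Prod.mk x ⁻¹' ((⋃ k, f k) \ ⋃ k < n, f k))
      (fun n => (measurable_prodMk_left ((MeasurableSet.iUnion hf).diff (hU n))).nullMeasurableSet)
      hanti ⟨0, measure_ne_top m _⟩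
    have hempty : (⋂ n, Prod.mk x ⁻¹' ((⋃ k, f k) \ ⋃ k < n, f k)) = ∅ := by
      rw [Set.eq_empty_iff_forall_notMem]
      intro y hy
      rw [Set.mem_iInter] at hy
      obtain ⟨k, hk⟩ := Set.mem_iUnion.1 (hy 0).1
      refine (hy (k + 1)).2 ?_
      exact Set.mem_biUnion (show k ∈ {k' | k' < k + 1} from Nat.lt_succ_self k) hk
    rw [hempty, measure_empty] at h
    exact h

private theorem gg_int (s : Set (ℝ × X)) (hs : MeasurableSet s) (x : ℝ) :
    GG m s hs x - (m.real {y | (x, y) ∈ s}) •
      indicatorConstLp 2 MeasurableSet.univ (measure_ne_top m _) (1 : ℝ) ∈ L0 m ∧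
    ∀ᵐ y ∂m, ((GG m s hs x - (m.real {y | (x, y) ∈ s}) •
      indicatorConstLp 2 MeasurableSet.univ (measure_ne_top m _) (1 : ℝ) : Lp ℝ 2 m) : X → ℝ) y =
      s.indicator (fun _ => (1 : ℝ)) (x, y) - m.real {y | (x, y) ∈ s} := by
  have hae : ∀ᵐ y ∂m, ((GG m s hs x - (m.real {y | (x, y) ∈ s}) •
      indicatorConstLp 2 MeasurableSet.univ (measure_ne_top m _) (1 : ℝ) : Lp ℝ 2 m) : X → ℝ) y =
      (Prod.mk x ⁻¹' s).indicator (fun _ => (1 : ℝ)) y - m.real {y | (x, y) ∈ s} := by
    have e1 := Lp.coeFn_sub (GG m s hs x) ((m.real {y | (x, y) ∈ s}) •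
      indicatorConstLp 2 MeasurableSet.univ (measure_ne_top m _) (1 : ℝ))
    have e2 := Lp.coeFn_smul (m.real {y | (x, y) ∈ s})
      (indicatorConstLp 2 MeasurableSet.univ (measure_ne_top m _) (1 : ℝ) : Lp ℝ 2 m)
    have e3 : (GG m s hs x : X → ℝ) =ᵐ[m] (Prod.mk x ⁻¹' s).indicator fun _ => (1 : ℝ) :=
      indicatorConstLp_coeFn
    have e4 : ((indicatorConstLp 2 MeasurableSet.univ (measure_ne_top m _) (1 : ℝ) : Lp ℝ 2 m) :
        X → ℝ) =ᵐ[m] (Set.univ : Set X).indicator fun _ => (1 : ℝ) := indicatorConstLp_coeFn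
    filter_upwards [e1, e2, e3, e4] with y h1 h2 h3 h4
    rw [h1, Pi.sub_apply, h2, Pi.smul_apply, h3, h4, Set.indicator_of_mem (Set.mem_univ y)]
    simp
  constructor
  · show ∫ y, ((GG m s hs x - (m.real {y | (x, y) ∈ s}) •
      indicatorConstLp 2 MeasurableSet.univ (measure_ne_top m _) (1 : ℝ) : Lp ℝ 2 m) : X → ℝ) y ∂m
      = 0
    rw [integral_congr_ae hae, integral_sub]
    · rw [integral_indicator_const _ (measurable_prodMk_left hs), integral_const]
      simp only [smul_eq_mul, mul_one, probReal_univ, one_mul]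
      exact sub_self _
    · exact (integrable_const _).indicator (measurable_prodMk_left hs)
    · exact integrable_const _
  · filter_upwards [hae] with y hy
    rw [hy]
    rfl

end

/-- slices of measurable sets -/
theorem t_slice : S_slice := by
  intro X _ _ _ _ m _ s hs
  refine ⟨fun x => ⟨_, (gg_int m s hs x).1⟩, ?_, fun x => (gg_int m s hs x).2⟩
  have hemb : Topology.IsEmbedding (Subtype.val : L0 m → Lp ℝ 2 m) := Topology.IsEmbedding.subtypeVal
  rw [← Embedding.comp_stronglyMeasurable_iff hemb]
  refine (gg_meas m s hs).sub ?_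
  refine StronglyMeasurable.smul_const ?_ _
  exact (measurable_measure_prodMk_left hs).ennreal_toReal.stronglyMeasurable

end Pool.Agent.H695.IE
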